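import Mathlib
import Pool.Agent.W917.Flip.CardCase

/-!
# MP_3937af_lc: an automorphism of `P(λ)/Fin` which is not trivial on any cocountable set

Let `P` be the forcing notion of the finite partial functions from `λ` to `{0, 1}`, and let `G` be
generic. For `x` in `λ` let `G_x` be the generic filter obtained from `G` by changing the value of
the generic function at the coordinate `x`. The automorphism maps the class of the set with the
name `A` to the class of the set of all `x` such that `x` belongs to the set that the name `A`
denotes with respect to `G_x`. It is well defined and an automorphism, since a condition is moved by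
only finitely many of these changes.
-/

namespace Pool.Agent.Results.MP_3937af_lc.CohenFlip

open Cardinal Pool.Agent.H65R3.Forc Pool.Agent.W917.Flip

/-- For every uncountable cardinal `κ` there is a nonempty forcing notion `P`, every condition of
which forces that all the infinite cardinals of the ground model, in particular `ℵ₁` and `κ`, are
still cardinals, and that some automorphism of the quotient of the power set of `κ` by the ideal of
the finite sets is not trivial on any set with countable complement. -/
theorem result (κ : Cardinal.{0}) (hκ : ℵ₀ < κ) :
    ∃ (P : Type) (_ : Preorder P), Nonempty P ∧ ∀ p : P,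
      (∀ μ : Cardinal.{0}, ℵ₀ ≤ μ → p ∈ StaysCardinal P μ) ∧ p ∈ HasAutFin P (K κ) := by
  refine ⟨Pool.Agent.H631R2.Cond (K κ), inferInstance, ⟨⟨∅, by simp⟩⟩,
    fun p => ⟨fun μ hμ => staysCardinal hμ p, ?_⟩⟩
  exact mem_fex_of_mem (TT (K κ)) (down_fand
      (down_fand (down_fand (down_fall fun _ => down_fex _) (down_fall fun _ => down_fex _))
        (down_fall fun _ => down_fall fun _ => down_fall fun _ => down_fall fun _ =>
          down_fimp _ _))
      (down_fall fun _ => down_fimp _ _))
      ⟨isAut_TT ideal_fin finSet_eq p,
        fin_nontrivial (by rw [mk_K]; exact not_le.2 hκ) p⟩

end Pool.Agent.Results.MP_3937af_lc.CohenFlip
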